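import Mathlib
import Pool.Agent.Lib.MP_0a1b52_lc_RT.DefsA

/-!
# Nondeterministic circuits for the clique function which read every variable at most once
-/

set_option autoImplicit false

namespace Pool.Agent.RA

open Finset Pool.Agent.FP Pool.Agent.RT

/-! ## Two circuits side by side -/

private def mapG {V : Type} {s t : ℕ} (f : Fin s → Fin t) : Gate V s → Gate V t
  | .lit v b => .lit v b
  | .and i j => .and (f i) (f j)
  | .or i j => .or (f i) (f j)

private theorem mapG_lit {V : Type} {s t : ℕ} {f : Fin s → Fin t} {G : Gate V s} {v : V}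
    {b : Bool} (h : mapG f G = .lit v b) : G = .lit v b := by
  cases G with
  | lit v' b' => simpa [mapG] using h
  | and i j => simp [mapG] at h
  | or i j => simp [mapG] at h

private theorem mapG_and {V : Type} {s t : ℕ} {f : Fin s → Fin t} {G : Gate V s} {i j : Fin t}
    (h : mapG f G = .and i j) : ∃ i' j', G = .and i' j' ∧ f i' = i ∧ f j' = j := by
  cases G with
  | lit v' b' => simp [mapG] at h
  | and i' j' => simp only [mapG, Gate.and.injEq] at h; exact ⟨i', j', rfl, h.1, h.2⟩
  | or i' j' => simp [mapG] at h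

private theorem mapG_or {V : Type} {s t : ℕ} {f : Fin s → Fin t} {G : Gate V s} {i j : Fin t}
    (h : mapG f G = .or i j) : ∃ i' j', G = .or i' j' ∧ f i' = i ∧ f j' = j := by
  cases G with
  | lit v' b' => simp [mapG] at h
  | and i' j' => simp [mapG] at h
  | or i' j' => simp only [mapG, Gate.or.injEq] at h; exact ⟨i', j', rfl, h.1, h.2⟩

private def top {V : Type} {s : ℕ} (isAnd : Bool) (i j : Fin s) : Gate V s :=
  if isAnd then .and i j else .or i j

/-- the gates of two circuits side by side and a further gate -/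
private def joinGate {V : Type} {s t : ℕ} (D : Circuit V s) (E : Circuit V t) (isAnd : Bool) :
    Fin (s + t + 1) → Gate V (s + t + 1) :=
  Fin.lastCases (top isAnd (Fin.castSucc (Fin.castAdd t D.out)) (Fin.castSucc (Fin.natAdd s E.out)))
    (fun g => Fin.addCases
      (fun g => mapG (fun i => Fin.castSucc (Fin.castAdd t i)) (D.gate g))
      (fun g => mapG (fun i => Fin.castSucc (Fin.natAdd s i)) (E.gate g)) g)

private theorem joinGate_last {V : Type} {s t : ℕ} (D : Circuit V s) (E : Circuit V t)
    (isAnd : Bool) : joinGate D E isAnd (Fin.last _) =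
      top isAnd (Fin.castSucc (Fin.castAdd t D.out)) (Fin.castSucc (Fin.natAdd s E.out)) := by
  unfold joinGate
  rw [Fin.lastCases_last]

private theorem joinGate_left {V : Type} {s t : ℕ} (D : Circuit V s) (E : Circuit V t)
    (isAnd : Bool) (g : Fin s) : joinGate D E isAnd (Fin.castSucc (Fin.castAdd t g)) =
      mapG (fun i => Fin.castSucc (Fin.castAdd t i)) (D.gate g) := by
  unfold joinGate
  rw [Fin.lastCases_castSucc, Fin.addCases_left]

private theorem joinGate_right {V : Type} {s t : ℕ} (D : Circuit V s) (E : Circuit V t)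
    (isAnd : Bool) (g : Fin t) : joinGate D E isAnd (Fin.castSucc (Fin.natAdd s g)) =
      mapG (fun i => Fin.castSucc (Fin.natAdd s i)) (E.gate g) := by
  unfold joinGate
  rw [Fin.lastCases_castSucc, Fin.addCases_right]

private theorem cases3 {s t : ℕ} (g : Fin (s + t + 1)) : g = Fin.last _ ∨
    (∃ g', g = Fin.castSucc (Fin.castAdd t g')) ∨ ∃ g', g = Fin.castSucc (Fin.natAdd s g') := by
  refine Fin.lastCases (Or.inl rfl) (fun g => Or.inr ?_) g
  refine Fin.addCases (fun g => Or.inl ⟨g, rfl⟩) (fun g => Or.inr ⟨g, rfl⟩) g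

private def joinC {V : Type} {s t : ℕ} (D : Circuit V s) (E : Circuit V t) (isAnd : Bool) :
    Circuit V (s + t + 1) where
  gate := joinGate D E isAnd
  and_lt := by
    intro g i j h
    rcases cases3 g with rfl | ⟨g, rfl⟩ | ⟨g, rfl⟩
    · rw [joinGate_last] at h
      unfold top at h
      split_ifs at h
      obtain ⟨rfl, rfl⟩ := Gate.and.inj h
      exact ⟨Fin.castSucc_lt_last _, Fin.castSucc_lt_last _⟩
    · rw [joinGate_left] at h
      obtain ⟨i', j', h1, rfl, rfl⟩ := mapG_and h
      have h2 := D.and_lt g i' j' h1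
      simp only [Fin.lt_def, Fin.val_castSucc, Fin.val_castAdd] at h2 ⊢
      exact h2
    · rw [joinGate_right] at h
      obtain ⟨i', j', h1, rfl, rfl⟩ := mapG_and h
      have h2 := E.and_lt g i' j' h1
      simp only [Fin.lt_def, Fin.val_castSucc, Fin.val_natAdd] at h2 ⊢
      omega
  or_lt := by
    intro g i j h
    rcases cases3 g with rfl | ⟨g, rfl⟩ | ⟨g, rfl⟩
    · rw [joinGate_last] at h
      unfold top at h
      split_ifs at h
      obtain ⟨rfl, rfl⟩ := Gate.or.inj h
      exact ⟨Fin.castSucc_lt_last _, Fin.castSucc_lt_last _⟩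
    · rw [joinGate_left] at h
      obtain ⟨i', j', h1, rfl, rfl⟩ := mapG_or h
      have h2 := D.or_lt g i' j' h1
      simp only [Fin.lt_def, Fin.val_castSucc, Fin.val_castAdd] at h2 ⊢
      exact h2
    · rw [joinGate_right] at h
      obtain ⟨i', j', h1, rfl, rfl⟩ := mapG_or h
      have h2 := E.or_lt g i' j' h1
      simp only [Fin.lt_def, Fin.val_castSucc, Fin.val_natAdd] at h2 ⊢
      omega
  out := Fin.last _

private theorem atree_join {V : Type} {s t : ℕ} (D : Circuit V s) (E : Circuit V t)
    (isAnd : Bool) (g : Fin (s + t + 1)) (L : List V) (h : ATree (joinC D E isAnd) g L) :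
    (∀ g', g = Fin.castSucc (Fin.castAdd t g') → ATree D g' L) ∧
    (∀ g', g = Fin.castSucc (Fin.natAdd s g') → ATree E g' L) ∧
    (g = Fin.last _ → isAnd = true → ∃ L₁ L₂, L = L₁ ++ L₂ ∧ ATree D D.out L₁ ∧
      ATree E E.out L₂) ∧
    (g = Fin.last _ → isAnd = false → ATree D D.out L ∨ ATree E E.out L) := by
  have hl : ∀ g', (joinC D E isAnd).gate (Fin.castSucc (Fin.castAdd t g')) =
      mapG (fun i => Fin.castSucc (Fin.castAdd t i)) (D.gate g') := joinGate_left D E isAnd
  have hr : ∀ g', (joinC D E isAnd).gate (Fin.castSucc (Fin.natAdd s g')) =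
      mapG (fun i => Fin.castSucc (Fin.natAdd s i)) (E.gate g') := joinGate_right D E isAnd
  have ht : (joinC D E isAnd).gate (Fin.last _) =
      top isAnd (Fin.castSucc (Fin.castAdd t D.out)) (Fin.castSucc (Fin.natAdd s E.out)) :=
    joinGate_last D E isAnd
  induction h with
  | lit g v b hg =>
    refine ⟨?_, ?_, ?_, ?_⟩
    · rintro g' rfl
      rw [hl] at hg
      exact .lit g' v b (mapG_lit hg)
    · rintro g' rfl
      rw [hr] at hg
      exact .lit g' v b (mapG_lit hg)
    · rintro rfl h
      rw [ht, h] at hg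
      simp [top] at hg
    · rintro rfl h
      rw [ht, h] at hg
      simp [top] at hg
  | left g i j L hg _ ih =>
    refine ⟨?_, ?_, ?_, ?_⟩
    · rintro g' rfl
      rw [hl] at hg
      obtain ⟨i', j', h1, rfl, rfl⟩ := mapG_or hg
      exact .left g' i' j' L h1 (ih.1 i' rfl)
    · rintro g' rfl
      rw [hr] at hg
      obtain ⟨i', j', h1, rfl, rfl⟩ := mapG_or hg
      exact .left g' i' j' L h1 (ih.2.1 i' rfl)
    · rintro rfl h
      rw [ht, h] at hg
      simp [top] at hg
    · rintro rfl h
      rw [ht, h] at hg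
      simp only [top, Bool.false_eq_true, if_false, Gate.or.injEq] at hg
      exact Or.inl (ih.1 _ hg.1.symm)
  | right g i j L hg _ ih =>
    refine ⟨?_, ?_, ?_, ?_⟩
    · rintro g' rfl
      rw [hl] at hg
      obtain ⟨i', j', h1, rfl, rfl⟩ := mapG_or hg
      exact .right g' i' j' L h1 (ih.1 j' rfl)
    · rintro g' rfl
      rw [hr] at hg
      obtain ⟨i', j', h1, rfl, rfl⟩ := mapG_or hg
      exact .right g' i' j' L h1 (ih.2.1 j' rfl)
    · rintro rfl h
      rw [ht, h] at hg
      simp [top] at hg
    · rintro rfl h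
      rw [ht, h] at hg
      simp only [top, Bool.false_eq_true, if_false, Gate.or.injEq] at hg
      exact Or.inr (ih.2.1 _ hg.2.symm)
  | both g i j L L' hg _ _ ih ih' =>
    refine ⟨?_, ?_, ?_, ?_⟩
    · rintro g' rfl
      rw [hl] at hg
      obtain ⟨i', j', h1, rfl, rfl⟩ := mapG_and hg
      exact .both g' i' j' L L' h1 (ih.1 i' rfl) (ih'.1 j' rfl)
    · rintro g' rfl
      rw [hr] at hg
      obtain ⟨i', j', h1, rfl, rfl⟩ := mapG_and hg
      exact .both g' i' j' L L' h1 (ih.2.1 i' rfl) (ih'.2.1 j' rfl)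
    · rintro rfl h
      rw [ht, h] at hg
      simp only [top, if_true, Gate.and.injEq] at hg
      exact ⟨L, L', rfl, ih.1 _ hg.1.symm, ih'.2.1 _ hg.2.symm⟩
    · rintro rfl h
      rw [ht, h] at hg
      simp [top] at hg

/-! ## Formulas with a bound for the number of gates and for the number of readings -/

/-- some circuit with at most `b` gates computes `F` and reads `x_e` at most `c e` times in every
accepting tree -/
private def Cc (n r b : ℕ) (F : (EdgeVar n ⊕ Fin r → Bool) → Bool) (c : EdgeVar n → ℕ) : Prop :=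
  ∃ s ≤ b, ∃ D : Circuit (EdgeVar n ⊕ Fin r) s,
    (∀ z, (∃ val, D.IsEval z val) ∧ ∀ val, D.IsEval z val → val D.out = F z) ∧
    ∀ L, ATree D D.out L → ∀ e, L.count (Sum.inl e) ≤ c e

private theorem eval_join {V : Type} {s t : ℕ} (D : Circuit V s) (E : Circuit V t)
    (isAnd : Bool) {F H : (V → Bool) → Bool}
    (hD : ∀ x, (∃ val, D.IsEval x val) ∧ ∀ val, D.IsEval x val → val D.out = F x)
    (hE : ∀ x, (∃ val, E.IsEval x val) ∧ ∀ val, E.IsEval x val → val E.out = H x) (x : V → Bool) :
    (∃ val, (joinC D E isAnd).IsEval x val) ∧ ∀ val, (joinC D E isAnd).IsEval x val →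
      val (joinC D E isAnd).out = if isAnd then F x && H x else F x || H x := by
  have hl : ∀ g', (joinC D E isAnd).gate (Fin.castSucc (Fin.castAdd t g')) =
      mapG (fun i => Fin.castSucc (Fin.castAdd t i)) (D.gate g') := joinGate_left D E isAnd
  have hr : ∀ g', (joinC D E isAnd).gate (Fin.castSucc (Fin.natAdd s g')) =
      mapG (fun i => Fin.castSucc (Fin.natAdd s i)) (E.gate g') := joinGate_right D E isAnd
  have ht : (joinC D E isAnd).gate (Fin.last _) =
      top isAnd (Fin.castSucc (Fin.castAdd t D.out)) (Fin.castSucc (Fin.natAdd s E.out)) :=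
    joinGate_last D E isAnd
  constructor
  · obtain ⟨v, hv⟩ := (hD x).1
    obtain ⟨w, hw⟩ := (hE x).1
    obtain ⟨u, hu1, hu2, hu3⟩ : ∃ u : Fin (s + t + 1) → Bool,
        u (Fin.last _) = (if isAnd then v D.out && w E.out else v D.out || w E.out) ∧
        (∀ g, u (Fin.castSucc (Fin.castAdd t g)) = v g) ∧
        ∀ g, u (Fin.castSucc (Fin.natAdd s g)) = w g :=
      ⟨Fin.lastCases (if isAnd then v D.out && w E.out else v D.out || w E.out)
        (Fin.addCases v w), by beta_reduce; rw [Fin.lastCases_last],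
        fun g => by beta_reduce; rw [Fin.lastCases_castSucc, Fin.addCases_left],
        fun g => by beta_reduce; rw [Fin.lastCases_castSucc, Fin.addCases_right]⟩
    refine ⟨u, fun g => ?_⟩
    rcases cases3 g with rfl | ⟨g, rfl⟩ | ⟨g, rfl⟩
    · rw [ht, hu1]
      cases isAnd
      · simp only [top, Bool.false_eq_true, if_false, hu2, hu3]
      · simp only [top, if_true, hu2, hu3]
    · rw [hl, hu2, hv g]
      cases D.gate g <;> simp only [mapG, hu2]
    · rw [hr, hu3, hw g]
      cases E.gate g <;> simp only [mapG, hu3]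
  · intro val hval
    have hv : D.IsEval x fun g => val (Fin.castSucc (Fin.castAdd t g)) := by
      intro g
      have h := hval (Fin.castSucc (Fin.castAdd t g))
      rw [hl] at h
      dsimp only
      rw [h]
      cases D.gate g <;> rfl
    have hw : E.IsEval x fun g => val (Fin.castSucc (Fin.natAdd s g)) := by
      intro g
      have h := hval (Fin.castSucc (Fin.natAdd s g))
      rw [hr] at h
      dsimp only
      rw [h]
      cases E.gate g <;> rfl
    have h1 := (hD x).2 _ hv
    have h2 := (hE x).2 _ hw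
    have h := hval (Fin.last _)
    rw [ht] at h
    show val (Fin.last _) = _
    rw [h, ← h1, ← h2]
    cases isAnd
    · simp [top]
    · simp [top]

private theorem Cc.and {n r b b' : ℕ} {F H : (EdgeVar n ⊕ Fin r → Bool) → Bool}
    {c c' : EdgeVar n → ℕ} (hF : Cc n r b F c) (hH : Cc n r b' H c') :
    Cc n r (b + b' + 1) (fun z => F z && H z) (fun e => c e + c' e) := by
  obtain ⟨s, hs, D, hD, hD'⟩ := hF
  obtain ⟨t, ht, E, hE, hE'⟩ := hH
  refine ⟨s + t + 1, by omega, joinC D E true, fun z => ?_, fun L hL e => ?_⟩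
  · have h := eval_join D E true hD hE z
    simpa using h
  · obtain ⟨L₁, L₂, rfl, h1, h2⟩ := (atree_join D E true _ L hL).2.2.1 rfl rfl
    rw [List.count_append]
    exact Nat.add_le_add (hD' L₁ h1 e) (hE' L₂ h2 e)

private theorem Cc.or {n r b b' : ℕ} {F H : (EdgeVar n ⊕ Fin r → Bool) → Bool}
    {c : EdgeVar n → ℕ} (hF : Cc n r b F c) (hH : Cc n r b' H c) :
    Cc n r (b + b' + 1) (fun z => F z || H z) c := by
  obtain ⟨s, hs, D, hD, hD'⟩ := hF
  obtain ⟨t, ht, E, hE, hE'⟩ := hH
  refine ⟨s + t + 1, by omega, joinC D E false, fun z => ?_, fun L hL e => ?_⟩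
  · have h := eval_join D E false hD hE z
    simpa using h
  · rcases (atree_join D E false _ L hL).2.2.2 rfl rfl with h | h
    · exact hD' L h e
    · exact hE' L h e

private theorem Cc.mono {n r b b' : ℕ} {F : (EdgeVar n ⊕ Fin r → Bool) → Bool}
    {c c' : EdgeVar n → ℕ} (hF : Cc n r b F c) (h : b ≤ b') (h' : ∀ e, c e ≤ c' e) :
    Cc n r b' F c' := by
  obtain ⟨s, hs, D, hD, hD'⟩ := hF
  exact ⟨s, hs.trans h, D, hD, fun L hL e => (hD' L hL e).trans (h' e)⟩

private theorem atree_lit {V : Type} {s : ℕ} (D : Circuit V s) (g : Fin s) (v : V) (b : Bool)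
    (hg : D.gate g = .lit v b) (L : List V) (h : ATree D g L) : L = [v] := by
  cases h with
  | lit _ v' b' h =>
    rw [hg] at h
    rw [(Gate.lit.inj h).1]
  | left _ i j _ h => rw [hg] at h; exact absurd h (by simp)
  | right _ i j _ h => rw [hg] at h; exact absurd h (by simp)
  | both _ i j _ _ h => rw [hg] at h; exact absurd h (by simp)

private theorem beq_inl {n r : ℕ} (a b : EdgeVar n) :
    ((Sum.inl a : EdgeVar n ⊕ Fin r) == Sum.inl b) = decide (a = b) := by
  show (a.1 == b.1) = _
  by_cases h : a = b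
  · subst h
    simp
  · have : a.1 ≠ b.1 := fun h' => h (Subtype.ext h')
    simp [h, this]

private theorem beq_inr {n r : ℕ} (a : Fin r) (b : EdgeVar n) :
    ((Sum.inr a : EdgeVar n ⊕ Fin r) == Sum.inl b) = false := rfl

private theorem Cc.guess {n r : ℕ} (v : Fin r) (b : Bool) :
    Cc n r 1 (fun z => z (Sum.inr v) == b) (fun _ => 0) := by
  refine ⟨1, le_rfl, ⟨fun _ => .lit (Sum.inr v) b, fun g i j h => absurd h (by simp),
    fun g i j h => absurd h (by simp), 0⟩, fun z => ⟨⟨fun _ => z (Sum.inr v) == b,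
      fun g => by simp⟩, ?_⟩, fun L hL e => ?_⟩
  · intro val hval
    have := hval 0
    simpa using this
  · rw [atree_lit _ _ (Sum.inr v) b rfl L hL, List.count_singleton, beq_inr]
    simp

private theorem Cc.edge {n r : ℕ} (e₀ : EdgeVar n) :
    Cc n r 1 (fun z => z (Sum.inl e₀)) (fun e => if e₀ = e then 1 else 0) := by
  refine ⟨1, le_rfl, ⟨fun _ => .lit (Sum.inl e₀) true, fun g i j h => absurd h (by simp),
    fun g i j h => absurd h (by simp), 0⟩, fun z => ⟨⟨fun _ => z (Sum.inl e₀),
      fun g => by simp⟩, ?_⟩, fun L hL e => ?_⟩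
  · intro val hval
    have := hval 0
    simpa using this
  · rw [atree_lit _ _ (Sum.inl e₀) true rfl L hL, List.count_singleton, beq_inl]
    simp

private theorem Cc.all {n r b : ℕ} {ι : Type} (l : List ι) (hl : l ≠ [])
    (F : ι → (EdgeVar n ⊕ Fin r → Bool) → Bool) (c : ι → EdgeVar n → ℕ)
    (hF : ∀ i, Cc n r b (F i) (c i)) :
    Cc n r (l.length * (b + 1)) (fun z => l.all fun i => F i z)
      (fun e => (l.map fun i => c i e).sum) := by
  induction l with
  | nil => exact absurd rfl hl
  | cons i l ih =>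
    rcases eq_or_ne l [] with rfl | h
    · obtain ⟨s, hs, D, hD, hD'⟩ := hF i
      refine ⟨s, by simp; omega, D, fun z => ⟨(hD z).1, fun val hval => ?_⟩, fun L hL e => ?_⟩
      · rw [(hD z).2 val hval]
        simp
      · simpa using hD' L hL e
    · obtain ⟨s, hs, D, hD, hD'⟩ := (hF i).and (ih h)
      refine ⟨s, hs.trans (le_of_eq ?_), D, fun z => ⟨(hD z).1, fun val hval => ?_⟩,
        fun L hL e => ?_⟩
      · simp only [List.length_cons]
        ring
      · rw [(hD z).2 val hval]
        simp
      · simpa using hD' L hL e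

private theorem Cc.all_finset {n r b : ℕ} {ι : Type} [Fintype ι] [Nonempty ι]
    (F : ι → (EdgeVar n ⊕ Fin r → Bool) → Bool) (c : ι → EdgeVar n → ℕ)
    (hF : ∀ i, Cc n r b (F i) (c i)) :
    ∃ G : (EdgeVar n ⊕ Fin r → Bool) → Bool, (∀ z, G z = true ↔ ∀ i, F i z = true) ∧
      Cc n r (Fintype.card ι * (b + 1)) G (fun e => ∑ i, c i e) := by
  have hl : (univ : Finset ι).toList ≠ [] := by
    intro h
    have := Finset.toList_eq_nil.1 h
    exact univ_nonempty.ne_empty this
  refine ⟨fun z => (univ : Finset ι).toList.all fun i => F i z, fun z => by simp, ?_⟩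
  obtain ⟨s, hs, D, hD, hD'⟩ := Cc.all (univ : Finset ι).toList hl F c hF
  refine ⟨s, ?_, D, hD, fun L hL e => ?_⟩
  · rwa [length_toList, card_univ] at hs
  · have h : L.count (Sum.inl e) ≤ ((univ : Finset ι).toList.map fun i => c i e).sum := hD' L hL e
    rwa [Finset.sum_map_toList] at h

/-! ## The formula -/

/-- the bits to be guessed: the set of vertices, and the table of the counts -/
private abbrev W (n k : ℕ) : Type := Fin n ⊕ (Fin (n + 1) × Fin (k + 1))

private theorem card_W (n k : ℕ) : Fintype.card (W n k) = n + (n + 1) * (k + 1) := by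
  simp [W]

/-- the formula says: the vertices `v` with `u v` are pairwise adjacent, and `t i j` is true only
if there are `j` such vertices among the first `i` ones; `t n k` is true -/
private def Good {n k : ℕ} (x : EdgeVar n → Bool) (u : Fin n → Bool)
    (t : Fin (n + 1) → Fin (k + 1) → Bool) : Prop :=
  (∀ e : EdgeVar n, (u e.1.1 == false || (u e.1.2 == false || x e)) = true) ∧
  (∀ j : Fin k, (t 0 j.succ == false) = true) ∧
  (∀ p : Fin n × Fin k, (t p.1.succ p.2.succ == false || (t p.1.castSucc p.2.succ == true ||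
    (t p.1.castSucc p.2.castSucc == true && u p.1 == true))) = true) ∧
  (t (Fin.last n) (Fin.last k) == true) = true

/-- the number of chosen vertices among the first `i` ones -/
private def num {n : ℕ} (u : Fin n → Bool) (i : ℕ) : ℕ :=
  (univ.filter fun v : Fin n => u v = true ∧ v.val < i).card

private theorem num_zero {n : ℕ} (u : Fin n → Bool) : num u 0 = 0 := by
  simp [num]

private theorem num_succ {n : ℕ} (u : Fin n → Bool) (i : Fin n) :
    num u (i.val + 1) = num u i.val + if u i = true then 1 else 0 := by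
  unfold num
  split_ifs with h
  · have h1 : (univ.filter fun v : Fin n => u v = true ∧ v.val < i.val + 1) =
        insert i (univ.filter fun v : Fin n => u v = true ∧ v.val < i.val) := by
      ext v
      simp only [mem_filter, mem_univ, true_and, mem_insert]
      constructor
      · rintro ⟨h1, h2⟩
        rcases Nat.lt_succ_iff_lt_or_eq.1 h2 with h3 | h3
        · exact Or.inr ⟨h1, h3⟩
        · exact Or.inl (Fin.ext h3)
      · rintro (rfl | ⟨h1, h2⟩)
        · exact ⟨h, Nat.lt_succ_self _⟩
        · exact ⟨h1, h2.trans (Nat.lt_succ_self _)⟩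
    rw [h1, card_insert_of_notMem (by simp)]
  · rw [add_zero]
    congr 1
    ext v
    simp only [mem_filter, mem_univ, true_and]
    constructor
    · rintro ⟨h1, h2⟩
      rcases Nat.lt_succ_iff_lt_or_eq.1 h2 with h3 | h3
      · exact ⟨h1, h3⟩
      · exact absurd (by rwa [Fin.ext h3] at h1) h
    · rintro ⟨h1, h2⟩
      exact ⟨h1, h2.trans (Nat.lt_succ_self _)⟩

private theorem hsq (n k : ℕ) : Real.sqrt n < k ↔ Nat.sqrt n + 1 ≤ k := by
  rcases Nat.eq_zero_or_pos k with h | h
  · subst h
    constructor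
    · intro h
      exact absurd h (not_lt.2 (by simp))
    · intro h
      omega
  · rw [Real.sqrt_lt' (by exact_mod_cast h), Nat.succ_le_iff, Nat.sqrt_lt']
    exact_mod_cast Iff.rfl

private theorem clq_iff {n : ℕ} (x : EdgeVar n → Bool) :
    Clq x ↔ ∃ (u : Fin n → Bool) (t : Fin (n + 1) → Fin (Nat.sqrt n + 1 + 1) → Bool),
      Good x u t := by
  set k := Nat.sqrt n + 1 with hk
  constructor
  · rintro ⟨K, hK, hc⟩
    have hKk : k ≤ K.card := (hsq n K.card).1 hc
    set u : Fin n → Bool := fun v => decide (v ∈ K) with hu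
    refine ⟨u, fun i j => decide (j.val ≤ num u i.val), ?_, ?_, ?_, ?_⟩
    · intro e
      by_cases h1 : e.1.1 ∈ K
      · by_cases h2 : e.1.2 ∈ K
        · obtain ⟨e', h3, h4⟩ := hK (mem_coe.2 h1) (mem_coe.2 h2) (ne_of_lt e.2)
          have h5 : e' = e := by
            rcases h4 with h4 | h4
            · exact Subtype.ext h4
            · have h5 := e'.2
              rw [h4] at h5
              exact absurd e.2 (lt_asymm h5)
          rw [← h5, h3]
          simp
        · simp [hu, h2]
      · simp [hu, h1]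
    · intro j
      simp [num_zero]
    · rintro ⟨i, j⟩
      have h := num_succ u i
      simp only [Fin.val_succ, Fin.val_castSucc]
      by_cases h1 : u i = true
      · rw [if_pos h1] at h
        by_cases h2 : j.val ≤ num u i.val
        · simp [h1, h2]
        · have h3 : ¬ (j.val + 1 ≤ num u (i.val + 1)) := by omega
          simp [h3]
      · rw [if_neg h1, add_zero] at h
        by_cases h2 : j.val + 1 ≤ num u i.val
        · simp [h2]
        · simp [h, h2]
    · have h1 : num u n = K.card := by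
        unfold num
        congr 1
        ext v
        simp [hu]
      simp only [Fin.val_last, h1]
      simp [hKk]
  · rintro ⟨u, t, h1, h2, h3, h4⟩
    have h5 : ∀ i : Fin (n + 1), ∀ j : Fin (k + 1), t i j = true → j.val ≤ num u i.val := by
      intro i
      refine Fin.induction ?_ ?_ i
      · intro j
        refine Fin.cases ?_ (fun j => ?_) j
        · intro _
          simp
        · intro h
          have := h2 j
          rw [h] at this
          exact absurd this (by simp)
      · intro i ih j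
        refine Fin.cases ?_ (fun j => ?_) j
        · intro _
          simp
        · intro h
          have h6 := h3 (i, j)
          rw [h] at h6
          have h7 : (t i.castSucc j.succ == true ||
            (t i.castSucc j.castSucc == true && u i == true)) = true := by simpa using h6
          have h8 := num_succ u i
          show j.val + 1 ≤ num u (i.val + 1)
          rw [h8]
          rcases Bool.or_eq_true_iff.1 h7 with h9 | h9
          · have := ih j.succ (by simpa using h9)
            rw [Fin.val_succ, Fin.val_castSucc] at this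
            omega
          · obtain ⟨h10, h11⟩ := Bool.and_eq_true_iff.1 h9
            have := ih j.castSucc (by simpa using h10)
            rw [Fin.val_castSucc, Fin.val_castSucc] at this
            rw [if_pos (by simpa using h11)]
            omega
    have h6 := h5 (Fin.last n) (Fin.last k) (by simpa using h4)
    rw [Fin.val_last, Fin.val_last] at h6
    refine ⟨univ.filter fun v => u v = true, ?_, ?_⟩
    · intro a ha b hb hab
      have ha' : u a = true := by simpa using ha
      have hb' : u b = true := by simpa using hb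
      rcases lt_or_gt_of_ne hab with h | h
      · have h7 := h1 ⟨(a, b), h⟩
        simp only [ha', hb'] at h7
        exact ⟨⟨(a, b), h⟩, by simpa using h7, Or.inl rfl⟩
      · have h7 := h1 ⟨(b, a), h⟩
        simp only [ha', hb'] at h7
        exact ⟨⟨(b, a), h⟩, by simpa using h7, Or.inr rfl⟩
    · rw [hsq]
      refine h6.trans (le_of_eq ?_)
      unfold num
      congr 1
      ext v
      simp

private theorem card_edgeVar (n : ℕ) : Fintype.card (EdgeVar n) ≤ n * n := by
  refine (Fintype.card_subtype_le _).trans (le_of_eq ?_)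
  simp

/-- **A small nondeterministic circuit for the clique function**: after guessing `r ≤ n ^ 2` bits
`w` it has at most `n ^ 3` gates, and in every accepting tree each variable of the graph is read at
most once. -/
theorem cnf_cliqueE {n : ℕ} (hn : 25 ≤ n) : ∃ (r s : ℕ) (D : Circuit (EdgeVar n ⊕ Fin r) s),
    r ≤ n ^ 2 ∧ s ≤ n ^ 3 ∧
    (∀ x : EdgeVar n → Bool, Clq x ↔ ∃ w : Fin r → Bool, D.Accepts (Sum.elim x w)) ∧
    ∀ L, ATree D D.out L → ∀ e : EdgeVar n, L.count (Sum.inl e) ≤ 1 := by
  set k := Nat.sqrt n + 1 with hk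
  have hk5 : 5 * k ≤ 2 * n := by
    have h1 : 5 ≤ Nat.sqrt n := by
      rw [Nat.le_sqrt]
      omega
    have h2 := Nat.sqrt_le n
    nlinarith
  have hkn : k ≤ n := by omega
  have : Nonempty (EdgeVar n) := ⟨⟨(⟨0, by omega⟩, ⟨1, by omega⟩), by simp [Fin.lt_def]⟩⟩
  have : Nonempty (Fin k) := ⟨⟨0, by omega⟩⟩
  have : Nonempty (Fin n) := ⟨⟨0, by omega⟩⟩
  obtain ⟨r, hr⟩ : ∃ r, r = Fintype.card (W n k) := ⟨_, rfl⟩
  obtain ⟨ε⟩ : Nonempty (W n k ≃ Fin r) := ⟨Fintype.equivFinOfCardEq hr.symm⟩
  -- the clauses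
  obtain ⟨G1, g1, c1⟩ := Cc.all_finset (n := n) (r := r) (ι := EdgeVar n) (b := 5)
    (fun e z => z (Sum.inr (ε (Sum.inl e.1.1))) == false ||
      (z (Sum.inr (ε (Sum.inl e.1.2))) == false || z (Sum.inl e)))
    (fun e₀ e => if e₀ = e then 1 else 0)
    (fun e => ((Cc.guess _ _).mono le_rfl (fun _ => Nat.zero_le _)).or
      (((Cc.guess _ _).mono le_rfl (fun _ => Nat.zero_le _)).or (Cc.edge e)))
  obtain ⟨G2, g2, c2⟩ := Cc.all_finset (n := n) (r := r) (ι := Fin k) (b := 1)
    (fun j z => z (Sum.inr (ε (Sum.inr (0, j.succ)))) == false) (fun _ _ => 0)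
    (fun j => Cc.guess _ _)
  obtain ⟨G3, g3, c3⟩ := Cc.all_finset (n := n) (r := r) (ι := Fin n × Fin k) (b := 7)
    (fun p z => z (Sum.inr (ε (Sum.inr (p.1.succ, p.2.succ)))) == false ||
      (z (Sum.inr (ε (Sum.inr (p.1.castSucc, p.2.succ)))) == true ||
        (z (Sum.inr (ε (Sum.inr (p.1.castSucc, p.2.castSucc)))) == true &&
          z (Sum.inr (ε (Sum.inl p.1))) == true))) (fun _ _ => 0)
    (fun p => (Cc.guess _ _).or ((Cc.guess _ _).or
      (((Cc.guess _ _).and (Cc.guess _ _)).mono le_rfl (fun _ => le_rfl))))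
  have c4 := Cc.guess (n := n) (r := r) (ε (Sum.inr (Fin.last n, Fin.last k))) true
  obtain ⟨s, hs, D, hD, hD'⟩ := (c1.and (c2.and (c3.and c4)))
  refine ⟨r, s, D, ?_, ?_, fun x => ?_, fun L hL e => ?_⟩
  · rw [hr, card_W]
    nlinarith
  · have h1 := card_edgeVar n
    have h2 : Fintype.card (Fin n × Fin k) = n * k := by simp
    rw [h2, Fintype.card_fin] at hs
    nlinarith
  · rw [clq_iff]
    constructor
    · rintro ⟨u, t, h1, h2, h3, h4⟩
      refine ⟨fun q => Sum.elim u (fun p => t p.1 p.2) (ε.symm q), ?_⟩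
      obtain ⟨val, hval⟩ := (hD (Sum.elim x fun q => Sum.elim u (fun p => t p.1 p.2)
        (ε.symm q))).1
      refine ⟨val, hval, ?_⟩
      rw [(hD _).2 val hval]
      simp only [Bool.and_eq_true_iff]
      refine ⟨(g1 _).2 ?_, (g2 _).2 ?_, (g3 _).2 ?_, ?_⟩
      · simpa only [Sum.elim_inr, Sum.elim_inl, Equiv.symm_apply_apply] using h1
      · simpa only [Sum.elim_inr, Sum.elim_inl, Equiv.symm_apply_apply] using h2
      · simpa only [Sum.elim_inr, Sum.elim_inl, Equiv.symm_apply_apply] using h3
      · simpa only [Sum.elim_inr, Sum.elim_inl, Equiv.symm_apply_apply] using h4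
    · rintro ⟨w, val, hval, h⟩
      rw [(hD _).2 val hval] at h
      simp only [Bool.and_eq_true_iff] at h
      exact ⟨fun v => w (ε (Sum.inl v)), fun i j => w (ε (Sum.inr (i, j))),
        (g1 _).1 h.1, (g2 _).1 h.2.1, (g3 _).1 h.2.2.1, h.2.2.2⟩
  · have h := hD' L hL e
    simpa using h

theorem cnf_clique' : ∃ n₀ : ℕ, ∀ n ≥ n₀, ∃ (r s : ℕ) (D : Circuit (EdgeVar n ⊕ Fin r) s),
    r ≤ n ^ 2 ∧ s ≤ n ^ 3 ∧
    (∀ x : EdgeVar n → Bool, Clq x ↔ ∃ w : Fin r → Bool, D.Accepts (Sum.elim x w)) ∧
    ∀ L, ATree D D.out L → ∀ e : EdgeVar n, L.count (Sum.inl e) ≤ 1 :=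
  ⟨25, fun _ hn => cnf_cliqueE hn⟩

/-- The same without the bound for the number of guessed bits. -/
theorem cnf_clique : ∃ n₀ : ℕ, ∀ n ≥ n₀, ∃ (r s : ℕ) (D : Circuit (EdgeVar n ⊕ Fin r) s),
    s ≤ n ^ 3 ∧
    (∀ x : EdgeVar n → Bool, Clq x ↔ ∃ w : Fin r → Bool, D.Accepts (Sum.elim x w)) ∧
    ∀ L, ATree D D.out L → ∀ e : EdgeVar n, L.count (Sum.inl e) ≤ 1 := by
  obtain ⟨n₀, h⟩ := cnf_clique'
  refine ⟨n₀, fun n hn => ?_⟩
  obtain ⟨r, s, D, -, h2, h3, h4⟩ := h n hn
  exact ⟨r, s, D, h2, h3, h4⟩

end Pool.Agent.RA
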