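import Mathlib
import Pool.Agent.Lib.MP_0a1b52_lc_RT.RelA
import Pool.Agent.Lib.MP_0a1b52_lc_RT.Dual
import Pool.Agent.Lib.MP_b573ec_lc_RA.MainG

/-!
# Randomised circuits with one-sided error which read the graph few times: the lower bound
-/

set_option autoImplicit false

namespace Pool.Agent.RA

open Finset Pool.Agent.FP Pool.Agent.RK Pool.Agent.RT

theorem count_inl {n r : ℕ} (e : EdgeVar n) (L : List (EdgeVar n ⊕ Fin r)) :
    @List.count (EdgeVar n ⊕ Fin r) instBEqOfDecidableEq (Sum.inl e) L =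
      L.count (Sum.inl e) := by
  unfold List.count
  refine List.countP_congr fun v _ => ?_
  rcases v with v | v
  · show (decide (Sum.inl v = (Sum.inl e : EdgeVar n ⊕ Fin r)) = true) ↔ ((v == e) = true)
    simp [Subtype.ext_iff]
  · show (decide (Sum.inr v = (Sum.inl e : EdgeVar n ⊕ Fin r)) = true) ↔ (false = true)
    simp

open Classical in
/-- a fixed assignment of the random bits -/
private theorem lower_one {n r s N : ℕ} {η δ γ c : ℝ} (E1 E2 : Finset (EdgeVar n))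
    (hd : Disjoint E1 E2) (hcard : E1.card = E2.card) (hE : (n : ℝ) ^ η ≤ E1.card)
    (Q : Fin N → EdgeVar n → Bool)
    (hfam : ∀ X : Fin 2 → Finset (EdgeVar n), (n : ℝ) ^ (-δ) * (E1.card : ℝ) ^ 2 ≤
            ((E1 ∩ X 0).card : ℝ) * ((E2 ∩ X 1).card : ℝ) →
          ∀ T : (EdgeVar n → Bool) → Prop, StarK X T → (∀ x, T x → Clq x) →
            ((univ.filter fun i => T (Q i)).card : ℝ) ≤
              N * (2 : ℝ) ^ (-((n : ℝ) ^ (γ + η))))
    (h2 : ∀ (V : Type) [Fintype V] [DecidableEq V] (E1 E2 : Finset V),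
      Disjoint E1 E2 → E1.card = E2.card →
      (n : ℝ) ^ η ≤ E1.card →
      ∀ (N : ℕ) (Q : Fin N → V → Bool) (C : (V → Bool) → Prop),
        (∀ X : Fin 2 → Finset V, (n : ℝ) ^ (-δ) * (E1.card : ℝ) ^ 2 ≤
          ((E1 ∩ X 0).card : ℝ) * ((E2 ∩ X 1).card : ℝ) →
          ∀ T : (V → Bool) → Prop, StarK X T → (∀ x, T x → C x) →
            (Nat.card {i // T (Q i)} : ℝ) ≤
              N * (2 : ℝ) ^ (-((n : ℝ) ^ (γ + η)))) →
        ∀ (s : ℕ) (D : Circuit V s), (∀ x, ¬ D.Accepts x → C x) →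
          (s : ℝ) ≤ (2 : ℝ) ^ ((n : ℝ) ^ γ) →
          (∀ e ∈ E1 ∪ E2, ∀ L, Tree D D.out L → (L.count e : ℝ) ≤ c * Real.logb 2 n) →
          (Nat.card {i // ¬ D.Accepts (Q i)} : ℝ) ≤
            N * (2 : ℝ) ^ (-((n : ℝ) ^ γ)))
    (D : Circuit (EdgeVar n ⊕ Fin r) s) (hs : (s : ℝ) ≤ (2 : ℝ) ^ ((n : ℝ) ^ γ))
    (hD : ∀ (x : EdgeVar n → Bool) (w : Fin r → Bool), D.Accepts (Sum.elim x w) → Clq x)
    (hcnt : ∀ e ∈ E1 ∪ E2, ∀ L, ATree D D.out L →
      (L.count (Sum.inl e) : ℝ) ≤ c * Real.logb 2 n) (w : Fin r → Bool) :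
    ((univ.filter fun i => D.Accepts (Sum.elim (Q i) w)).card : ℝ) ≤
      N * (2 : ℝ) ^ (-((n : ℝ) ^ γ)) := by
  have hinj : Function.Injective (Sum.inl : EdgeVar n → EdgeVar n ⊕ Fin r) := Sum.inl_injective
  have hrestr : ∀ (E : Finset (EdgeVar n)) (X : Finset (EdgeVar n ⊕ Fin r)),
      ((E.map ⟨Sum.inl, hinj⟩) ∩ X).card = (E ∩ univ.filter fun e => Sum.inl e ∈ X).card := by
    intro E X
    rw [← card_map ⟨Sum.inl, hinj⟩ (s := E ∩ univ.filter fun e => Sum.inl e ∈ X)]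
    congr 1
    ext v
    simp only [mem_inter, mem_map, Function.Embedding.coeFn_mk, mem_filter, mem_univ, true_and]
    constructor
    · rintro ⟨⟨e, he, rfl⟩, h⟩
      exact ⟨e, ⟨he, h⟩, rfl⟩
    · rintro ⟨e, ⟨he, h⟩, rfl⟩
      exact ⟨⟨e, he, rfl⟩, h⟩
  have h := h2 (EdgeVar n ⊕ Fin r) (E1.map ⟨Sum.inl, hinj⟩) (E2.map ⟨Sum.inl, hinj⟩)
    ((disjoint_map _).2 hd) (by rw [card_map, card_map, hcard]) (by rw [card_map]; exact hE) N
    (fun i => Sum.elim (Q i) w) (fun z => Clq fun e => z (Sum.inl e)) ?_ s (dual D) ?_ hs ?_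
  · rw [Nat.card_eq_fintype_card, Fintype.card_subtype] at h
    refine le_trans (le_of_eq ?_) h
    congr 2
    ext i
    simp only [mem_filter, mem_univ, true_and, dual_accepts, not_not]
  · intro X hX T hT hTC
    rw [hrestr, hrestr, card_map] at hX
    have h3 := hfam (fun k => univ.filter fun e => Sum.inl e ∈ X k) hX
      (fun x => T (Sum.elim x w)) ?_ ?_
    · rw [Nat.card_eq_fintype_card, Fintype.card_subtype]
      exact h3
    · intro u v huv hv
      refine hT _ (fun k => Sum.elim (v k) w) ?_ hv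
      rintro k (e | j) he
      · exact huv k e fun he' => he (mem_filter.1 he').2
      · rfl
    · intro x hx
      exact hTC _ hx
  · intro z hz
    rw [dual_accepts, not_not] at hz
    refine hD (fun e => z (Sum.inl e)) (fun j => z (Sum.inr j)) ?_
    convert hz using 1
    funext v
    rcases v with v | v <;> rfl
  · intro e he L hL
    rw [← map_union, mem_map] at he
    obtain ⟨e', he', rfl⟩ := he
    refine le_trans (le_of_eq ?_) (hcnt e' he' L (tree_dual hL))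
    exact congrArg (Nat.cast : ℕ → ℝ) (count_inl e' L)

open Classical in
/-- **Lower bound.** -/
theorem lower (γ ε : ℝ) (hγ : 0 ≤ γ) (hγ2 : γ < 1 / 2) (hε : 0 < ε) : ∃ c : ℝ, 0 < c ∧
    ∃ n₀ : ℕ, ∀ n ≥ n₀, ∀ E : Finset (EdgeVar n), (n : ℝ) ^ (2 * γ + ε) ≤ E.card →
      ∃ (N : ℕ) (Q : Fin N → EdgeVar n → Bool), 0 < N ∧ (∀ i, Clq (Q i)) ∧
        ∀ (s r : ℕ) (D : Circuit (EdgeVar n ⊕ Fin r) s), (s : ℝ) ≤ (2 : ℝ) ^ ((n : ℝ) ^ γ) →
          (∀ (x : EdgeVar n → Bool) (w : Fin r → Bool), D.Accepts (Sum.elim x w) → Clq x) →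
          (∀ e ∈ E, ∀ L, ATree D D.out L → (L.count (Sum.inl e) : ℝ) ≤ c * Real.logb 2 n) →
          ((univ.filter fun p : Fin N × (Fin r → Bool) =>
            D.Accepts (Sum.elim (Q p.1) p.2)).card : ℝ) ≤
            N * 2 ^ r * (2 : ℝ) ^ (-((n : ℝ) ^ γ)) := by
  obtain ⟨η, δ, hη, hδ, n₁, h1⟩ := relA γ ε hγ hγ2 hε
  obtain ⟨c, hc, n₂, h2⟩ := mainG γ η δ hγ hη hδ
  refine ⟨c, hc, max n₁ n₂, fun n hn E hE => ?_⟩
  obtain ⟨E1, E2, hE1, hE2, hd, hcard, hEη, N, Q, hN, hQ, hfam⟩ :=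
    h1 n (le_trans (le_max_left _ _) hn) E hE
  refine ⟨N, Q, hN, hQ, fun s r D hs hD hcnt => ?_⟩
  have key := lower_one E1 E2 hd hcard hEη Q hfam (c := c)
    (fun V _ _ => h2 n (le_trans (le_max_right _ _) hn) V) D hs hD (by
      intro e he L hL
      refine hcnt e ?_ L hL
      rcases mem_union.1 he with he | he
      · exact hE1 he
      · exact hE2 he)
  have h3 : ((univ.filter fun p : Fin N × (Fin r → Bool) =>
      D.Accepts (Sum.elim (Q p.1) p.2)).card : ℝ) =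
      ∑ w : Fin r → Bool, ((univ.filter fun i => D.Accepts (Sum.elim (Q i) w)).card : ℝ) := by
    rw [card_filter]
    push_cast
    rw [Fintype.sum_prod_type_right]
    refine sum_congr rfl fun w _ => ?_
    rw [card_filter]
    push_cast
    rfl
  rw [h3]
  refine (sum_le_sum fun w _ => key w).trans (le_of_eq ?_)
  rw [sum_const, card_univ, Fintype.card_fun, Fintype.card_bool, Fintype.card_fin, nsmul_eq_mul]
  push_cast
  ring

end Pool.Agent.RA
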