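import Mathlib
import Pool.Agent.Lib.MP_0a1b52_lc_RT.DefsA

/-!
# Reading the pairs inside a set of `k` vertices once at the cost of a factor `2 ^ k`

Let `W` be a set of `k` vertices.  The new circuit is the disjunction over `T ⊆ W` of the
conjunction of the variables `x_e`, `e` inside `T`, and of the old circuit at the input which is
obtained by replacing the graph on `W` by the complete graph on `T`; the further variables stay.
-/

set_option autoImplicit false

namespace Pool.Agent.RA

open Finset Pool.Agent.FP Pool.Agent.RT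

variable {V : Type} {s t : ℕ}

/-! ## Values -/

private def ev (D : Circuit V s) (x : V → Bool) (g : Fin s) : Bool :=
  match _h : D.gate g with
  | .lit v b => x v == b
  | .and i j => ev D x i && ev D x j
  | .or i j => ev D x i || ev D x j
termination_by g
decreasing_by
  · exact (D.and_lt g i j _h).1
  · exact (D.and_lt g i j _h).2
  · exact (D.or_lt g i j _h).1
  · exact (D.or_lt g i j _h).2

private theorem ev_isEval (D : Circuit V s) (x : V → Bool) : D.IsEval x (ev D x) := by
  intro g
  rw [ev]
  split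
  · rename_i v b h
    rw [h]
  · rename_i i j h
    rw [h]
  · rename_i i j h
    rw [h]

private theorem ev_unique {D : Circuit V s} {x : V → Bool} {val val' : Fin s → Bool}
    (h : D.IsEval x val) (h' : D.IsEval x val') : val = val' := by
  funext g
  induction g using WellFoundedLT.induction with
  | ind g ih =>
    rw [h g, h' g]
    rcases hg : D.gate g with ⟨v, b⟩ | ⟨i, j⟩ | ⟨i, j⟩
    · rfl
    · have h1 := D.and_lt g i j hg
      simp only [ih i h1.1, ih j h1.2]
    · have h1 := D.or_lt g i j hg
      simp only [ih i h1.1, ih j h1.2]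

private theorem accepts_iff {D : Circuit V s} {x : V → Bool} {val : Fin s → Bool}
    (h : D.IsEval x val) : D.Accepts x ↔ val D.out = true := by
  constructor
  · rintro ⟨val', h1, h2⟩
    rw [ev_unique h h1]
    exact h2
  · intro h1
    exact ⟨val, h, h1⟩

/-! ## Subcircuits -/

private def mapGate (f : Fin s → Fin t) : Gate V s → Gate V t
  | .lit v b => .lit v b
  | .and i j => .and (f i) (f j)
  | .or i j => .or (f i) (f j)

private theorem sub_tree {C : Circuit V t} {D : Circuit V s} {f : Fin s → Fin t}
    (hf : ∀ g, C.gate (f g) = mapGate f (D.gate g)) {g' : Fin t} {L : List V}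
    (h : ATree C g' L) : ∀ g, g' = f g → ATree D g L := by
  induction h with
  | lit g' v b hg' =>
    rintro g rfl
    rw [hf] at hg'
    rcases hg : D.gate g with ⟨w, c⟩ | ⟨i, j⟩ | ⟨i, j⟩ <;> rw [hg] at hg' <;>
      simp only [mapGate, reduceCtorEq, Gate.lit.injEq] at hg'
    obtain ⟨rfl, rfl⟩ := hg'
    exact .lit g _ _ hg
  | left g' i' j' L hg' _ ih =>
    rintro g rfl
    rw [hf] at hg'
    rcases hg : D.gate g with ⟨w, c⟩ | ⟨i, j⟩ | ⟨i, j⟩ <;> rw [hg] at hg' <;>
      simp only [mapGate, reduceCtorEq, Gate.or.injEq] at hg'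
    exact .left g i j L hg (ih i hg'.1.symm)
  | right g' i' j' L hg' _ ih =>
    rintro g rfl
    rw [hf] at hg'
    rcases hg : D.gate g with ⟨w, c⟩ | ⟨i, j⟩ | ⟨i, j⟩ <;> rw [hg] at hg' <;>
      simp only [mapGate, reduceCtorEq, Gate.or.injEq] at hg'
    exact .right g i j L hg (ih j hg'.2.symm)
  | both g' i' j' L L' hg' _ _ ih ih' =>
    rintro g rfl
    rw [hf] at hg'
    rcases hg : D.gate g with ⟨w, c⟩ | ⟨i, j⟩ | ⟨i, j⟩ <;> rw [hg] at hg' <;>
      simp only [mapGate, reduceCtorEq, Gate.and.injEq] at hg'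
    exact .both g i j L L' hg (ih i hg'.1.symm) (ih' j hg'.2.symm)

private theorem sub_eval {C : Circuit V t} {D : Circuit V s} {f : Fin s → Fin t}
    (hf : ∀ g, C.gate (f g) = mapGate f (D.gate g)) {x : V → Bool} {val : Fin t → Bool}
    (h : C.IsEval x val) : D.IsEval x fun g => val (f g) := by
  intro g
  have h1 := h (f g)
  rw [hf] at h1
  dsimp only
  rw [h1]
  rcases D.gate g with ⟨w, c⟩ | ⟨i, j⟩ | ⟨i, j⟩ <;> rfl

/-! ## Two circuits and a further gate -/

private def lft (s t : ℕ) (i : Fin s) : Fin (s + t + 1) := Fin.castSucc (Fin.castAdd t i)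

private def rgt (s t : ℕ) (i : Fin t) : Fin (s + t + 1) := Fin.castSucc (Fin.natAdd s i)

private def join (D : Circuit V s) (E : Circuit V t) (isAnd : Bool) : Circuit V (s + t + 1) where
  gate := Fin.lastCases
    (if isAnd then .and (lft s t D.out) (rgt s t E.out) else .or (lft s t D.out) (rgt s t E.out))
    (fun g => Fin.addCases (fun g => mapGate (lft s t) (D.gate g))
      (fun g => mapGate (rgt s t) (E.gate g)) g)
  and_lt := by
    intro g i j
    refine Fin.lastCases ?_ (fun g => ?_) g
    · rw [Fin.lastCases_last]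
      split_ifs
      · intro h
        obtain ⟨rfl, rfl⟩ := Gate.and.inj h
        exact ⟨Fin.castSucc_lt_last _, Fin.castSucc_lt_last _⟩
      · intro h
        exact absurd h (by simp)
    · rw [Fin.lastCases_castSucc]
      refine Fin.addCases (fun g => ?_) (fun g => ?_) g
      · rw [Fin.addCases_left]
        rcases hg : D.gate g with ⟨v, b⟩ | ⟨a, b⟩ | ⟨a, b⟩ <;> intro h <;>
          simp only [mapGate, reduceCtorEq, Gate.and.injEq] at h
        obtain ⟨rfl, rfl⟩ := h
        have h1 := D.and_lt g a b hg
        simp only [lft, Fin.lt_def, Fin.val_castSucc, Fin.val_castAdd] at h1 ⊢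
        exact h1
      · rw [Fin.addCases_right]
        rcases hg : E.gate g with ⟨v, b⟩ | ⟨a, b⟩ | ⟨a, b⟩ <;> intro h <;>
          simp only [mapGate, reduceCtorEq, Gate.and.injEq] at h
        obtain ⟨rfl, rfl⟩ := h
        have h1 := E.and_lt g a b hg
        simp only [rgt, Fin.lt_def, Fin.val_castSucc, Fin.val_natAdd] at h1 ⊢
        omega
  or_lt := by
    intro g i j
    refine Fin.lastCases ?_ (fun g => ?_) g
    · rw [Fin.lastCases_last]
      split_ifs
      · intro h
        exact absurd h (by simp)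
      · intro h
        obtain ⟨rfl, rfl⟩ := Gate.or.inj h
        exact ⟨Fin.castSucc_lt_last _, Fin.castSucc_lt_last _⟩
    · rw [Fin.lastCases_castSucc]
      refine Fin.addCases (fun g => ?_) (fun g => ?_) g
      · rw [Fin.addCases_left]
        rcases hg : D.gate g with ⟨v, b⟩ | ⟨a, b⟩ | ⟨a, b⟩ <;> intro h <;>
          simp only [mapGate, reduceCtorEq, Gate.or.injEq] at h
        obtain ⟨rfl, rfl⟩ := h
        have h1 := D.or_lt g a b hg
        simp only [lft, Fin.lt_def, Fin.val_castSucc, Fin.val_castAdd] at h1 ⊢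
        exact h1
      · rw [Fin.addCases_right]
        rcases hg : E.gate g with ⟨v, b⟩ | ⟨a, b⟩ | ⟨a, b⟩ <;> intro h <;>
          simp only [mapGate, reduceCtorEq, Gate.or.injEq] at h
        obtain ⟨rfl, rfl⟩ := h
        have h1 := E.or_lt g a b hg
        simp only [rgt, Fin.lt_def, Fin.val_castSucc, Fin.val_natAdd] at h1 ⊢
        omega
  out := Fin.last _

private theorem join_lft (D : Circuit V s) (E : Circuit V t) (isAnd : Bool) (g : Fin s) :
    (join D E isAnd).gate (lft s t g) = mapGate (lft s t) (D.gate g) := by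
  unfold join
  dsimp only
  rw [show lft s t g = Fin.castSucc (Fin.castAdd t g) from rfl, Fin.lastCases_castSucc,
    Fin.addCases_left]

private theorem join_rgt (D : Circuit V s) (E : Circuit V t) (isAnd : Bool) (g : Fin t) :
    (join D E isAnd).gate (rgt s t g) = mapGate (rgt s t) (E.gate g) := by
  unfold join
  dsimp only
  rw [show rgt s t g = Fin.castSucc (Fin.natAdd s g) from rfl, Fin.lastCases_castSucc,
    Fin.addCases_right]

private theorem join_last (D : Circuit V s) (E : Circuit V t) (isAnd : Bool) :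
    (join D E isAnd).gate (join D E isAnd).out = if isAnd then .and (lft s t D.out) (rgt s t E.out)
      else .or (lft s t D.out) (rgt s t E.out) := by
  unfold join
  dsimp only
  rw [Fin.lastCases_last]

/-! ## Replacing literals by constants -/

private theorem tree_count [BEq V] [LawfulBEq V] {C : Circuit V s} {E : Finset V}
    (h : ∀ g v b, C.gate g = .lit v b → v ∉ E) {g : Fin s} {L : List V} (hL : ATree C g L) :
    ∀ e ∈ E, L.count e = 0 := by
  intro e he
  induction hL with
  | lit g v b hg =>
    rw [List.count_eq_zero]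
    intro h1
    rw [List.mem_singleton] at h1
    exact h g v b hg (h1 ▸ he)
  | left g i j L _ _ ih => exact ih
  | right g i j L _ _ ih => exact ih
  | both g i j L L' _ _ _ ih ih' => rw [List.count_append, ih, ih']

private def resGate [DecidableEq V] (E : Finset V) (ρ : V → Bool) : Gate V s → Gate V (4 + s)
  | .lit e b => if e ∈ E then (if ρ e == b then .or (Fin.castAdd s 2) (Fin.castAdd s 2)
      else .or (Fin.castAdd s 3) (Fin.castAdd s 3)) else .lit e b
  | .and i j => .and (Fin.natAdd 4 i) (Fin.natAdd 4 j)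
  | .or i j => .or (Fin.natAdd 4 i) (Fin.natAdd 4 j)

private def cstGate (s : ℕ) (v : V) : Fin 4 → Gate V (4 + s) :=
  ![.lit v true, .lit v false, .or (Fin.castAdd s 0) (Fin.castAdd s 1),
    .and (Fin.castAdd s 0) (Fin.castAdd s 1)]

/-- the variables of `E` are replaced by constants, which are computed with the variable `v` -/
private def res [DecidableEq V] (D : Circuit V s) (E : Finset V) (ρ : V → Bool) (v : V) :
    Circuit V (4 + s) where
  gate := Fin.addCases (cstGate s v) fun g => resGate E ρ (D.gate g)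
  and_lt := by
    intro g i j
    refine Fin.addCases (fun g => ?_) (fun g => ?_) g
    · rw [Fin.addCases_left]
      fin_cases g <;> intro h <;> simp [cstGate] at h
      obtain ⟨rfl, rfl⟩ := h
      simp [Fin.lt_def]
    · rw [Fin.addCases_right]
      rcases hg : D.gate g with ⟨e, b⟩ | ⟨a, b⟩ | ⟨a, b⟩ <;> intro h <;> unfold resGate at h <;>
        dsimp only at h
      · split_ifs at h
      · obtain ⟨rfl, rfl⟩ := Gate.and.inj h
        have h1 := D.and_lt g a b hg
        simp only [Fin.lt_def, Fin.val_natAdd] at h1 ⊢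
        omega
      · exact absurd h (by simp)
  or_lt := by
    intro g i j
    refine Fin.addCases (fun g => ?_) (fun g => ?_) g
    · rw [Fin.addCases_left]
      fin_cases g <;> intro h <;> simp [cstGate] at h
      obtain ⟨rfl, rfl⟩ := h
      simp [Fin.lt_def]
    · rw [Fin.addCases_right]
      rcases hg : D.gate g with ⟨e, b⟩ | ⟨a, b⟩ | ⟨a, b⟩ <;> intro h <;> unfold resGate at h <;>
        dsimp only at h
      · split_ifs at h
        · obtain ⟨rfl, rfl⟩ := Gate.or.inj h
          simp only [Fin.lt_def, Fin.val_natAdd, Fin.val_castAdd]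
          constructor <;> exact Nat.lt_of_lt_of_le (by decide) (Nat.le_add_right 4 _)
        · obtain ⟨rfl, rfl⟩ := Gate.or.inj h
          simp only [Fin.lt_def, Fin.val_natAdd, Fin.val_castAdd]
          constructor <;> exact Nat.lt_of_lt_of_le (by decide) (Nat.le_add_right 4 _)
      · exact absurd h (by simp)
      · obtain ⟨rfl, rfl⟩ := Gate.or.inj h
        have h1 := D.or_lt g a b hg
        simp only [Fin.lt_def, Fin.val_natAdd] at h1 ⊢
        omega
  out := Fin.natAdd 4 D.out

private theorem res_cst [DecidableEq V] (D : Circuit V s) (E : Finset V) (ρ : V → Bool) (v : V)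
    (i : Fin 4) : (res D E ρ v).gate (Fin.castAdd s i) = cstGate s v i := by
  unfold res
  dsimp only
  rw [Fin.addCases_left]

private theorem res_gate [DecidableEq V] (D : Circuit V s) (E : Finset V) (ρ : V → Bool) (v : V)
    (g : Fin s) : (res D E ρ v).gate (Fin.natAdd 4 g) = resGate E ρ (D.gate g) := by
  unfold res
  dsimp only
  rw [Fin.addCases_right]

private theorem res_tree [DecidableEq V] [BEq V] [LawfulBEq V] (D : Circuit V s) (E : Finset V)
    (ρ : V → Bool) (v : V)
    (hv : v ∉ E) {g : Fin (4 + s)} {L : List V} (hL : ATree (res D E ρ v) g L) :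
    ∀ e ∈ E, L.count e = 0 := by
  refine tree_count (fun g w b => ?_) hL
  refine Fin.addCases (fun g => ?_) (fun g => ?_) g
  · rw [res_cst]
    fin_cases g <;> intro h <;> simp [cstGate] at h
    · rw [← h.1]
      exact hv
    · rw [← h.1]
      exact hv
  · rw [res_gate]
    rcases hg : D.gate g with ⟨e, b⟩ | ⟨a, b⟩ | ⟨a, b⟩ <;> intro h <;> unfold resGate at h <;>
      dsimp only at h
    · split_ifs at h with h1 h2
      obtain ⟨rfl, rfl⟩ := Gate.lit.inj h
      exact h1
    · exact absurd h (by simp)
    · exact absurd h (by simp)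

private theorem res_accepts [DecidableEq V] (D : Circuit V s) (E : Finset V) (ρ : V → Bool) (v : V)
    (x : V → Bool) : (res D E ρ v).Accepts x ↔ D.Accepts fun e => if e ∈ E then ρ e else x e := by
  have h := ev_isEval (res D E ρ v) x
  set val := ev (res D E ρ v) x with hval
  have h0 : val (Fin.castAdd s 0) = x v := by
    have h1 := h (Fin.castAdd s 0)
    rw [res_cst] at h1
    rw [h1]
    simp [cstGate]
  have h1 : val (Fin.castAdd s 1) = !x v := by
    have h1 := h (Fin.castAdd s 1)
    rw [res_cst] at h1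
    rw [h1]
    simp [cstGate]
  have h2 : val (Fin.castAdd s 2) = true := by
    have h2 := h (Fin.castAdd s 2)
    rw [res_cst] at h2
    rw [h2]
    simp only [cstGate, Matrix.cons_val]
    rw [h0, h1]
    cases x v <;> rfl
  have h3 : val (Fin.castAdd s 3) = false := by
    have h3 := h (Fin.castAdd s 3)
    rw [res_cst] at h3
    rw [h3]
    simp only [cstGate, Matrix.cons_val]
    rw [h0, h1]
    cases x v <;> rfl
  have h4 : D.IsEval (fun e => if e ∈ E then ρ e else x e) fun g => val (Fin.natAdd 4 g) := by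
    intro g
    have h4 := h (Fin.natAdd 4 g)
    rw [res_gate] at h4
    dsimp only
    rw [h4]
    rcases hg : D.gate g with ⟨e, b⟩ | ⟨a, b⟩ | ⟨a, b⟩
    · unfold resGate
      dsimp only
      by_cases he : e ∈ E
      · rw [if_pos he, if_pos he]
        by_cases hb : (ρ e == b) = true
        · rw [if_pos hb]
          dsimp only
          rw [h2, hb]
          rfl
        · rw [if_neg hb]
          dsimp only
          rw [h3, Bool.not_eq_true] at *
          rw [hb]
          rfl
      · rw [if_neg he, if_neg he]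
    · rfl
    · rfl
  rw [accepts_iff h, accepts_iff h4]
  rfl

/-! ## Circuits which read the variables of a set few times -/

section

variable [BEq V]

/-- Some circuit with at most `b` gates computes `F` and reads each variable `e` of `E` at most
`r e` times in each formal accepting tree. -/
private def CA (E : Finset V) (r : V → ℕ) (b : ℕ) (F : (V → Bool) → Prop) : Prop :=
  ∃ s ≤ b, ∃ D : Circuit V s, (∀ x, D.Accepts x ↔ F x) ∧
    ∀ e ∈ E, ∀ L, ATree D D.out L → L.count e ≤ r e

private theorem CA.mono {E : Finset V} {r r' : V → ℕ} {b b' : ℕ} {F F' : (V → Bool) → Prop}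
    (h : CA E r b F) (hr : ∀ e, r e ≤ r' e) (hb : b ≤ b') (hF : ∀ x, F x ↔ F' x) :
    CA E r' b' F' := by
  obtain ⟨s, hs, D, hD, hT⟩ := h
  exact ⟨s, hs.trans hb, D, fun x => (hD x).trans (hF x),
    fun e he L hL => (hT e he L hL).trans (hr e)⟩

private theorem CA.and {E : Finset V} {r r' : V → ℕ} {b b' : ℕ} {F F' : (V → Bool) → Prop}
    (h : CA E r b F) (h' : CA E r' b' F') :
    CA E (fun e => r e + r' e) (b + b' + 1) fun x => F x ∧ F' x := by
  obtain ⟨s, hs, D, hD, hT⟩ := h
  obtain ⟨t, ht, D', hD', hT'⟩ := h'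
  refine ⟨s + t + 1, by omega, join D D' true, fun x => ?_, fun e he L hL => ?_⟩
  · have h1 := ev_isEval (join D D' true) x
    have h2 := h1 (join D D' true).out
    rw [join_last] at h2
    show _ ↔ F x ∧ F' x
    rw [accepts_iff h1, h2, ← hD x, ← hD' x, accepts_iff (sub_eval (join_lft D D' true) h1),
      accepts_iff (sub_eval (join_rgt D D' true) h1)]
    simp
  · have h1 := join_last D D' true
    cases hL with
    | lit _ v b h =>
      rw [h1] at h
      exact absurd h (by simp)
    | left _ i j _ h _ =>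
      rw [h1] at h
      exact absurd h (by simp)
    | right _ i j _ h _ =>
      rw [h1] at h
      exact absurd h (by simp)
    | both _ i j L L' h hL hL' =>
      rw [h1] at h
      simp only [if_true, Gate.and.injEq] at h
      obtain ⟨rfl, rfl⟩ := h
      rw [List.count_append]
      exact Nat.add_le_add (hT e he _ (sub_tree (join_lft D D' true) hL _ rfl))
        (hT' e he _ (sub_tree (join_rgt D D' true) hL' _ rfl))

private theorem CA.or {E : Finset V} {r : V → ℕ} {b b' : ℕ} {F F' : (V → Bool) → Prop}
    (h : CA E r b F) (h' : CA E r b' F') : CA E r (b + b' + 1) fun x => F x ∨ F' x := by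
  obtain ⟨s, hs, D, hD, hT⟩ := h
  obtain ⟨t, ht, D', hD', hT'⟩ := h'
  refine ⟨s + t + 1, by omega, join D D' false, fun x => ?_, fun e he L hL => ?_⟩
  · have h1 := ev_isEval (join D D' false) x
    have h2 := h1 (join D D' false).out
    rw [join_last] at h2
    show _ ↔ F x ∨ F' x
    rw [accepts_iff h1, h2, ← hD x, ← hD' x, accepts_iff (sub_eval (join_lft D D' false) h1),
      accepts_iff (sub_eval (join_rgt D D' false) h1)]
    simp
  · have h1 := join_last D D' false
    cases hL with
    | lit _ v b h =>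
      rw [h1] at h
      exact absurd h (by simp)
    | left _ i j _ h hL =>
      rw [h1] at h
      simp only [Bool.false_eq_true, if_false, Gate.or.injEq] at h
      obtain ⟨rfl, rfl⟩ := h
      exact hT e he _ (sub_tree (join_lft D D' false) hL _ rfl)
    | right _ i j _ h hL =>
      rw [h1] at h
      simp only [Bool.false_eq_true, if_false, Gate.or.injEq] at h
      obtain ⟨rfl, rfl⟩ := h
      exact hT' e he _ (sub_tree (join_rgt D D' false) hL _ rfl)
    | both _ i j L L' h hL hL' =>
      rw [h1] at h
      exact absurd h (by simp)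

private theorem CA.lit (E : Finset V) (v : V) :
    CA E (fun e => [v].count e) 1 fun x => x v = true := by
  refine ⟨1, le_rfl, ⟨fun _ => .lit v true, fun g i j h => absurd h (by simp),
    fun g i j h => absurd h (by simp), 0⟩, fun x => ?_, fun e _ L hL => ?_⟩
  · have h1 := ev_isEval (⟨fun _ => .lit v true, fun g i j h => absurd h (by simp),
      fun g i j h => absurd h (by simp), 0⟩ : Circuit V 1) x
    rw [accepts_iff h1, h1]
    simp
  · cases hL with
    | lit _ w b h =>
      obtain ⟨rfl, -⟩ := Gate.lit.inj h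
      exact le_rfl
    | left _ i j _ h hL => exact absurd h (by simp)
    | right _ i j _ h hL => exact absurd h (by simp)
    | both _ i j L L' h hL hL' => exact absurd h (by simp)

private theorem CA.all (E : Finset V) (l : List V) (hl : l ≠ []) :
    CA E (fun e => l.count e) (2 * l.length) fun x => ∀ e ∈ l, x e = true := by
  induction l with
  | nil => exact absurd rfl hl
  | cons v l ih =>
    rcases eq_or_ne l [] with rfl | h
    · exact (CA.lit E v).mono (fun _ => le_rfl) (by simp) fun x => by simp
    · refine ((CA.lit E v).and (ih h)).mono (fun e => ?_) ?_ fun x => ?_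
      · rw [← List.count_append]
        rfl
      · simp only [List.length_cons]
        omega
      · simp

private theorem CA.any {E : Finset V} {r : V → ℕ} (b : ℕ) (l : List ((V → Bool) → Prop))
    (hl : l ≠ []) (hF : ∀ F ∈ l, CA E r b F) :
    CA E r (l.length * (b + 1)) fun x => ∃ F ∈ l, F x := by
  induction l with
  | nil => exact absurd rfl hl
  | cons F l ih =>
    rcases eq_or_ne l [] with rfl | h
    · exact (hF F (by simp)).mono (fun _ => le_rfl) (by simp) fun x => by simp
    · refine ((hF F (by simp)).or (ih h fun G hG => hF G (by simp [hG]))).mono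
        (fun _ => le_rfl) ?_ fun x => ?_
      · simp only [List.length_cons]
        exact le_of_eq (by ring)
      · simp

end

/-! ## The clique function -/

/-- the variables inside a set of vertices -/
private def inside {n : ℕ} (S : Finset (Fin n)) : Finset (EdgeVar n) :=
  univ.filter fun e => e.1.1 ∈ S ∧ e.1.2 ∈ S

private theorem mem_inside {n : ℕ} {S : Finset (Fin n)} {e : EdgeVar n} :
    e ∈ inside S ↔ e.1.1 ∈ S ∧ e.1.2 ∈ S := by
  simp [inside]

private theorem inside_card {n : ℕ} (S : Finset (Fin n)) :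
    2 * (inside S).card = S.card * (S.card - 1) := by
  have h1 : (inside S).card = (S.offDiag.filter fun p => p.1 < p.2).card := by
    refine card_bij (fun e _ => e.1) (fun e he => ?_) (fun e _ e' _ h => Subtype.ext h)
      fun p hp => ?_
    · rw [mem_filter, mem_offDiag]
      exact ⟨⟨(mem_inside.1 he).1, (mem_inside.1 he).2, ne_of_lt e.2⟩, e.2⟩
    · rw [mem_filter, mem_offDiag] at hp
      exact ⟨⟨p, hp.2⟩, mem_inside.2 ⟨hp.1.1, hp.1.2.1⟩, rfl⟩
  have h2 : (S.offDiag.filter fun p => p.1 < p.2).card =
      (S.offDiag.filter fun p => ¬ p.1 < p.2).card := by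
    refine card_bij (fun p _ => p.swap) (fun p hp => ?_) (fun p _ p' _ h => Prod.swap_injective h)
      fun p hp => ?_
    · rw [mem_filter, mem_offDiag] at hp ⊢
      exact ⟨⟨hp.1.2.1, hp.1.1, hp.1.2.2.symm⟩, not_lt.2 hp.2.le⟩
    · rw [mem_filter, mem_offDiag] at hp
      refine ⟨p.swap, ?_, Prod.swap_swap p⟩
      rw [mem_filter, mem_offDiag]
      exact ⟨⟨hp.1.2.1, hp.1.1, hp.1.2.2.symm⟩, lt_of_le_of_ne (not_lt.1 hp.2) hp.1.2.2.symm⟩
  have h3 := card_filter_add_card_filter_not (s := S.offDiag) (fun p => p.1 < p.2)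
  rw [offDiag_card] at h3
  rw [Nat.mul_sub, mul_one]
  omega

/-- the value is monotone -/
private theorem clq_mono {n : ℕ} {x y : EdgeVar n → Bool} (h : ∀ e, x e = true → y e = true)
    (hx : Clq x) : Clq y := by
  obtain ⟨K, hK, hc⟩ := hx
  refine ⟨K, fun u hu v hv huv => ?_, hc⟩
  obtain ⟨e, h1, h2⟩ := hK hu hv huv
  exact ⟨e, h e h1, h2⟩

private theorem clq_iff {n : ℕ} (S : Finset (Fin n)) (x : EdgeVar n → Bool) :
    Clq x ↔ ∃ A ∈ S.powerset, (∀ e ∈ inside A, x e = true) ∧
      Clq fun e => if e ∈ inside S then decide (e ∈ inside A) else x e := by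
  constructor
  · rintro ⟨K, hK, hc⟩
    have hx : ∀ e : EdgeVar n, e.1.1 ∈ K → e.1.2 ∈ K → x e = true := by
      intro e h1 h2
      obtain ⟨e', h3, h4⟩ := hK (mem_coe.2 h1) (mem_coe.2 h2) (ne_of_lt e.2)
      have h5 : e' = e := by
        rcases h4 with h4 | h4
        · exact Subtype.ext h4
        · have h5 := e'.2
          rw [h4] at h5
          exact absurd e.2 (lt_asymm h5)
      rw [← h5]
      exact h3
    refine ⟨K ∩ S, mem_powerset.2 inter_subset_right, fun e he => ?_, K, fun u hu v hv huv => ?_,
      hc⟩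
    · have h1 := mem_inside.1 he
      exact hx e (mem_inter.1 h1.1).1 (mem_inter.1 h1.2).1
    · obtain ⟨e, h1, h2⟩ := hK hu hv huv
      refine ⟨e, ?_, h2⟩
      have h3 : e.1.1 ∈ K ∧ e.1.2 ∈ K := by
        rcases h2 with h2 | h2 <;> rw [h2]
        · exact ⟨hu, hv⟩
        · exact ⟨hv, hu⟩
      by_cases h4 : e ∈ inside S
      · simp only [h4, if_true, decide_eq_true_eq]
        have h5 := mem_inside.1 h4
        exact mem_inside.2 ⟨mem_inter.2 ⟨h3.1, h5.1⟩, mem_inter.2 ⟨h3.2, h5.2⟩⟩
      · simp only [h4, if_false]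
        exact h1
  · rintro ⟨A, -, h1, h2⟩
    refine clq_mono (fun e he => ?_) h2
    by_cases h4 : e ∈ inside S
    · simp only [h4, if_true, decide_eq_true_eq] at he
      exact h1 e he
    · simp only [h4, if_false] at he
      exact he

/-- the graph on `W` is replaced by the complete graph on `T` -/
private def put {n : ℕ} (W T : Finset (Fin n)) (x : EdgeVar n → Bool) (e : EdgeVar n) : Bool :=
  if e ∈ inside W then decide (e ∈ inside T) else x e

private theorem clq_put {n : ℕ} {W T : Finset (Fin n)} {x : EdgeVar n → Bool}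
    (h1 : ∀ e ∈ inside T, x e = true) (h2 : Clq (put W T x)) : Clq x := by
  refine clq_mono (fun e he => ?_) h2
  unfold put at he
  by_cases h4 : e ∈ inside W
  · simp only [h4, if_true, decide_eq_true_eq] at he
    exact h1 e he
  · simp only [h4, if_false] at he
    exact he

private theorem put_clq {n : ℕ} (W : Finset (Fin n)) {x : EdgeVar n → Bool} (hx : Clq x) :
    ∃ T ∈ W.powerset, (∀ e ∈ inside T, x e = true) ∧ Clq (put W T x) := by
  obtain ⟨T, hT, h1, h2⟩ := (clq_iff W x).1 hx
  exact ⟨T, hT, h1, h2⟩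

private def inlE (n r : ℕ) : EdgeVar n ↪ EdgeVar n ⊕ Fin r := ⟨Sum.inl, Sum.inl_injective⟩

private theorem count_inl' {n r : ℕ} (e : EdgeVar n) (L : List (EdgeVar n ⊕ Fin r)) :
    @List.count (EdgeVar n ⊕ Fin r) instBEqOfDecidableEq (Sum.inl e) L =
      L.count (Sum.inl e) := by
  unfold List.count
  refine List.countP_congr fun v _ => ?_
  rcases v with v | v
  · show (decide (Sum.inl v = (Sum.inl e : EdgeVar n ⊕ Fin r)) = true) ↔ ((v == e) = true)
    simp [Subtype.ext_iff]
  · show (decide (Sum.inr v = (Sum.inl e : EdgeVar n ⊕ Fin r)) = true) ↔ (false = true)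
    simp

/-- **Reading the pairs inside `W` once at the cost of a factor `2 ^ |W|`**, for circuits with
one-sided error for the clique function. -/
theorem onceR {n r s : ℕ} (D : Circuit (EdgeVar n ⊕ Fin r) s)
    (hD : ∀ (x : EdgeVar n → Bool) (w : Fin r → Bool), D.Accepts (Sum.elim x w) → Clq x)
    (W : Finset (Fin n)) (hW : W.card < n) :
    ∃ (s' : ℕ) (D' : Circuit (EdgeVar n ⊕ Fin r) s'), s' ≤ 2 ^ W.card * (s + W.card ^ 2 + 5) ∧
      (∀ (x : EdgeVar n → Bool) (w : Fin r → Bool), D'.Accepts (Sum.elim x w) → Clq x) ∧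
      (∀ x : EdgeVar n → Bool, Clq x → ∃ y : EdgeVar n → Bool, Clq y ∧
        ∀ w : Fin r → Bool, D.Accepts (Sum.elim y w) → D'.Accepts (Sum.elim x w)) ∧
      ∀ e : EdgeVar n, e.1.1 ∈ W → e.1.2 ∈ W → ∀ L, ATree D' D'.out L →
        L.count (Sum.inl e) ≤ 1 := by
  rcases Nat.eq_zero_or_pos W.card with hk0 | hk0
  · have hW0 : W = ∅ := card_eq_zero.1 hk0
    refine ⟨s, D, ?_, hD, fun x hx => ⟨x, hx, fun w h => h⟩, fun e he => ?_⟩
    · rw [hk0]
      simp
    · rw [hW0] at he
      exact absurd he (by simp)
  -- a variable outside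
  obtain ⟨v, hv⟩ : ∃ v : EdgeVar n, v ∉ inside W := by
    obtain ⟨u, hu⟩ := card_pos.1 hk0
    obtain ⟨w, hw⟩ : ∃ w, w ∉ W := by
      by_contra h
      push Not at h
      have h1 : W = univ := eq_univ_iff_forall.2 h
      rw [h1, card_univ, Fintype.card_fin] at hW
      omega
    have huw : u ≠ w := fun h => hw (h ▸ hu)
    rcases lt_or_gt_of_ne huw with h | h
    · exact ⟨⟨(u, w), h⟩, fun h1 => hw (mem_inside.1 h1).2⟩
    · exact ⟨⟨(w, u), h⟩, fun h1 => hw (mem_inside.1 h1).1⟩
  have hc := inside_card W
  set k := W.card with hk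
  set E : Finset (EdgeVar n ⊕ Fin r) := (inside W).map (inlE n r) with hE
  have hEinl : ∀ e : EdgeVar n, (Sum.inl e : EdgeVar n ⊕ Fin r) ∈ E ↔ e ∈ inside W := by
    intro e
    rw [hE, mem_map]
    constructor
    · rintro ⟨e', he', h⟩
      rw [← Sum.inl_injective h]
      exact he'
    · intro he
      exact ⟨e, he, rfl⟩
  have hEinr : ∀ i : Fin r, (Sum.inr i : EdgeVar n ⊕ Fin r) ∉ E := by
    intro i h
    rw [hE, mem_map] at h
    obtain ⟨e', -, h⟩ := h
    exact absurd h (by simp [inlE])
  set ρ : Finset (Fin n) → (EdgeVar n ⊕ Fin r) → Bool := fun T v =>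
    decide (v ∈ (inside T).map (inlE n r)) with hρ
  have hput : ∀ (T : Finset (Fin n)) (x : EdgeVar n → Bool) (w : Fin r → Bool),
      (fun v => if v ∈ E then ρ T v else (Sum.elim x w : EdgeVar n ⊕ Fin r → Bool) v) =
        Sum.elim (put W T x) w := by
    intro T x w
    funext v
    rcases v with e | i
    · simp only [hEinl, Sum.elim_inl, put, hρ]
      by_cases h : e ∈ inside W
      · rw [if_pos h, if_pos h]
        congr 1
        simp [inlE]
      · rw [if_neg h, if_neg h]
    · simp only [hEinr, if_false, Sum.elim_inr]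
  set l : List ((EdgeVar n ⊕ Fin r → Bool) → Prop) := W.powerset.toList.map fun T x =>
    (∀ e ∈ ((inside T).map (inlE n r)).toList, x e = true) ∧
      D.Accepts fun v => if v ∈ E then ρ T v else x v with hl
  have hl1 : l.length = 2 ^ k := by
    rw [hl, List.length_map, length_toList, card_powerset]
  have hl0 : l ≠ [] := by
    intro h
    rw [h, List.length_nil] at hl1
    exact absurd hl1.symm (by positivity)
  let ib : BEq (EdgeVar n ⊕ Fin r) := instBEqOfDecidableEq
  have hF : ∀ F ∈ l, CA E (fun _ => 1) (k * (k - 1) + (4 + s) + 1) F := by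
    intro F hF
    obtain ⟨A, hA, rfl⟩ := List.mem_map.1 hF
    rw [mem_toList, mem_powerset] at hA
    have h1 : CA E (fun _ => 0) (4 + s) fun x =>
        D.Accepts fun v => if v ∈ E then ρ A v else x v :=
      ⟨4 + s, le_rfl, res D E (ρ A) (Sum.inl v),
        fun x => res_accepts D E _ (Sum.inl v) x,
        fun e he L hL => (res_tree D E _ (Sum.inl v) (fun h => hv ((hEinl v).1 h)) hL e he).le⟩
    rcases eq_or_ne ((inside A).map (inlE n r)).toList [] with h0 | h0
    · refine h1.mono (fun _ => Nat.zero_le _) (by omega) fun x => ?_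
      rw [h0]
      simp
    · refine ((CA.all E ((inside A).map (inlE n r)).toList h0).and h1).mono (fun e => ?_) ?_
        fun x => Iff.rfl
      · exact List.nodup_iff_count_le_one.1 (nodup_toList _) e
      · have h2 : (inside A).card ≤ (inside W).card := card_le_card fun e he =>
          mem_inside.2 ⟨hA (mem_inside.1 he).1, hA (mem_inside.1 he).2⟩
        rw [length_toList, card_map]
        omega
  obtain ⟨s', hs', D', hD', hT'⟩ := CA.any _ l hl0 hF
  refine ⟨s', D', hs'.trans ?_, fun x w h => ?_, fun x hx => ?_, fun e he1 he2 L hL => ?_⟩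
  · rw [hl1]
    refine Nat.mul_le_mul_left _ ?_
    obtain ⟨j, hj⟩ : ∃ j, k = j + 1 := ⟨k - 1, by omega⟩
    rw [hj, Nat.add_sub_cancel]
    nlinarith
  · obtain ⟨F, hF, h⟩ := (hD' _).1 h
    obtain ⟨A, hA, rfl⟩ := List.mem_map.1 hF
    obtain ⟨h1, h2⟩ := h
    rw [hput] at h2
    refine clq_put (T := A) (fun e he => ?_) (hD _ w h2)
    exact h1 (Sum.inl e) (mem_toList.2 (mem_map.2 ⟨e, he, rfl⟩))
  · obtain ⟨T, hT, h1, h2⟩ := put_clq W hx
    refine ⟨put W T x, h2, fun w hw => (hD' _).2 ⟨_, List.mem_map.2 ⟨T, mem_toList.2 hT, rfl⟩,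
      fun v hv => ?_, ?_⟩⟩
    · obtain ⟨e, he, rfl⟩ := mem_map.1 (mem_toList.1 hv)
      exact h1 e he
    · rw [hput]
      exact hw
  · rw [← count_inl']
    exact hT' (Sum.inl e) ((hEinl e).2 (mem_inside.2 ⟨he1, he2⟩)) L hL

end Pool.Agent.RA
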