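import Mathlib
import Pool.Agent.Lib.MP_0a1b52_lc_LS.MainT
import Pool.Agent.Lib.MP_b573ec_lc_RA.Lower

/-!
# Randomised circuits with one-sided error for the clique function: `r` readings, explicit form
-/

set_option autoImplicit false

namespace Pool.Agent.RA

open Finset Pool.Agent.FP Pool.Agent.RK Pool.Agent.RT Pool.Agent.LS

open Classical in
/-- **Lower bound.** -/
theorem twoE (r m n : ℕ) (hr : 1 ≤ r) (hm : (2 : ℝ) ^ (256 * Real.sqrt r) ≤ m) (hn : m ≤ n)
    (E : Finset (EdgeVar n)) (hE : m ≤ E.card) :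
      ∃ (N : ℕ) (Q : Fin N → EdgeVar n → Bool), 0 < N ∧ (∀ i, Clq (Q i)) ∧
        ∀ (s t : ℕ) (D : Circuit (EdgeVar n ⊕ Fin t) s),
          (s : ℝ) ≤ (2 : ℝ) ^ Real.sqrt (m / (2 : ℝ) ^ (256 * Real.sqrt r)) →
          (∀ (x : EdgeVar n → Bool) (w : Fin t → Bool), D.Accepts (Sum.elim x w) → Clq x) →
          (∀ e ∈ E, ∀ L, ATree D D.out L → L.count (Sum.inl e) ≤ r) →
          ((univ.filter fun p : Fin N × (Fin t → Bool) =>
            D.Accepts (Sum.elim (Q p.1) p.2)).card : ℝ) ≤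
            N * 2 ^ t * (2 : ℝ) ^ (-Real.sqrt (m / (2 : ℝ) ^ (256 * Real.sqrt r))) := by
  obtain ⟨K, N₁, N₂, hK, hN, hN2, hcell, hEc, hmain⟩ := mainKT r m hr hm
  obtain ⟨hM1, hM2⟩ := hcell n hn
  obtain ⟨e, he1, he2, hfam⟩ := famQ n K N₁ N₂ hK hN hN2 hM1 hM2 E (hEc.trans hE)
  obtain ⟨Q, hQ1, hQ2⟩ := hfam true
  obtain ⟨φ⟩ : Nonempty (TabQ K N₁ N₂ × WdQ K N₁ ≃ Fin (Fintype.card (TabQ K N₁ N₂ × WdQ K N₁))) :=
    ⟨Fintype.equivFin _⟩
  refine ⟨Fintype.card (TabQ K N₁ N₂ × WdQ K N₁), fun i => Q (φ.symm i), ?_,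
    fun i => (hQ1 _).2 rfl, ?_⟩
  · exact Fintype.card_pos_iff.2 ⟨(fun _ _ => ⟨0, hN2⟩, fun _ _ => false)⟩
  intro s t D hs hD hcnt
  obtain ⟨z, hz⟩ : ∃ z : ℝ, z = Real.sqrt (m / (2 : ℝ) ^ (256 * Real.sqrt r)) := ⟨_, rfl⟩
  rw [← hz] at hs hmain ⊢
  have key : ∀ w : Fin t → Bool, ((univ.filter fun i : Fin (Fintype.card
      (TabQ K N₁ N₂ × WdQ K N₁)) => D.Accepts (Sum.elim (Q (φ.symm i)) w)).card : ℝ) ≤
      Fintype.card (TabQ K N₁ N₂ × WdQ K N₁) * (2 : ℝ) ^ (-z) := by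
    intro w
    have h1 := hmain (EdgeVar n ⊕ Fin t) (fun k j b => Sum.inl (e k j b))
      (fun k j b k' j' b' h => he2 k j b k' j' b' (Sum.inl_injective h))
      (TabQ K N₁ N₂ × WdQ K N₁) (fun i => Sum.elim (Q i) w) (fun z => Clq fun e => z (Sum.inl e))
      ?_ s (dual D) ?_ hs ?_
    · refine le_trans (le_of_eq ?_) h1
      rw [Nat.card_eq_fintype_card, Fintype.card_subtype, Nat.cast_inj]
      refine card_bij (fun i _ => φ.symm i) ?_ ?_ ?_
      · intro i hi
        refine mem_filter.2 ⟨mem_univ _, ?_⟩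
        rw [dual_accepts, not_not]
        exact (mem_filter.1 hi).2
      · intro i _ j _ h
        exact φ.symm.injective h
      · intro i hi
        refine ⟨φ i, mem_filter.2 ⟨mem_univ _, ?_⟩, φ.symm_apply_apply i⟩
        have h2 := (mem_filter.1 hi).2
        rw [dual_accepts, not_not] at h2
        simpa only [φ.symm_apply_apply] using h2
    · intro X J Y hJ hJX T hT hTC
      have h2 := hQ2 (fun k => univ.filter fun f => Sum.inl f ∈ X k) J Y hJ
        (fun k j hj b => mem_filter.2 ⟨mem_univ _, hJX k j hj b⟩)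
        (fun x => T (Sum.elim x w)) ?_ ?_
      · exact h2
      · intro u v huv hv
        refine hT _ (fun k => Sum.elim (v k) w) ?_ hv
        rintro k (f | j) hf
        · exact huv k f fun hf' => hf (mem_filter.1 hf').2
        · rfl
      · intro x hx
        exact ⟨fun _ => rfl, fun _ => hTC _ hx⟩
    · intro y hy
      rw [dual_accepts, not_not] at hy
      refine hD (fun f => y (Sum.inl f)) (fun j => y (Sum.inr j)) ?_
      have h2 : Sum.elim (fun f => y (Sum.inl f)) (fun j => y (Sum.inr j)) = y := by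
        funext v
        rcases v with v | v <;> rfl
      rw [h2]
      exact hy
    · intro k j b L hL
      exact (count_inl _ L).le.trans (hcnt _ (he1 k j b) L (tree_dual hL))
  have h3 : ((univ.filter fun p : Fin (Fintype.card (TabQ K N₁ N₂ × WdQ K N₁)) ×
        (Fin t → Bool) => D.Accepts (Sum.elim (Q (φ.symm p.1)) p.2)).card : ℝ) =
      ∑ w : Fin t → Bool, ((univ.filter fun i : Fin (Fintype.card
        (TabQ K N₁ N₂ × WdQ K N₁)) => D.Accepts (Sum.elim (Q (φ.symm i)) w)).card : ℝ) := by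
    rw [card_filter]
    push_cast
    rw [Fintype.sum_prod_type_right]
    refine sum_congr rfl fun w _ => ?_
    rw [card_filter]
    push_cast
    rfl
  rw [h3]
  refine (sum_le_sum fun w _ => key w).trans (le_of_eq ?_)
  rw [sum_const, card_univ, Fintype.card_fun, Fintype.card_bool, Fintype.card_fin, nsmul_eq_mul]
  push_cast
  ring

end Pool.Agent.RA
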