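import Mathlib
import Pool.Agent.Lib.MP_0a1b52_lc_LS.MainQ
import Pool.Agent.Lib.MP_b573ec_lc_RA.Lower

/-!
# Randomised circuits with one-sided error for the clique function: `c log² m` readings

The lower bound in terms of the number `m` of the variables whose readings are counted.
-/

set_option autoImplicit false

namespace Pool.Agent.RA

open Finset Pool.Agent.FP Pool.Agent.RK Pool.Agent.RT Pool.Agent.LS

open Classical in
/-- **Lower bound.** -/
theorem twoR (ε : ℝ) (hε : 0 < ε) (hε2 : ε ≤ 1 / 2) : ∃ c : ℝ, 0 < c ∧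
    ∃ m₀ : ℕ, ∀ m ≥ m₀, ∀ n ≥ m, ∀ E : Finset (EdgeVar n), m ≤ E.card →
      ∃ (N : ℕ) (Q : Fin N → EdgeVar n → Bool), 0 < N ∧ (∀ i, Clq (Q i)) ∧
        ∀ (s r : ℕ) (D : Circuit (EdgeVar n ⊕ Fin r) s),
          (s : ℝ) ≤ (2 : ℝ) ^ ((m : ℝ) ^ (1 / 2 - ε)) →
          (∀ (x : EdgeVar n → Bool) (w : Fin r → Bool), D.Accepts (Sum.elim x w) → Clq x) →
          (∀ e ∈ E, ∀ L, ATree D D.out L →
            (L.count (Sum.inl e) : ℝ) ≤ c * Real.logb 2 m ^ 2) →
          ((univ.filter fun p : Fin N × (Fin r → Bool) =>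
            D.Accepts (Sum.elim (Q p.1) p.2)).card : ℝ) ≤
            N * 2 ^ r * (2 : ℝ) ^ (-((m : ℝ) ^ (1 / 2 - ε))) := by
  obtain ⟨c, hc, m₀, h₀⟩ := mainKQ (1 / 2 - ε) (2 * ε) (by linarith) (by linarith) (by linarith)
  refine ⟨c, hc, m₀, fun m hm n hn E hE => ?_⟩
  obtain ⟨K, N₁, N₂, hK, hN, hN2, hM1, hM2, hEc, hmain⟩ := h₀ m hm
  have hsq : Nat.sqrt m ≤ Nat.sqrt n := Nat.sqrt_le_sqrt hn
  have hsq2 : Nat.sqrt n + m ≤ Nat.sqrt m + n := by
    have h1 : Nat.sqrt n < Nat.sqrt m + (n - m) + 1 := by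
      rw [Nat.sqrt_lt]
      have h2 := Nat.lt_succ_sqrt m
      have h3 : m < (Nat.sqrt m + 1) * (Nat.sqrt m + 1) := h2
      obtain ⟨d, rfl⟩ := Nat.exists_eq_add_of_le hn
      rw [Nat.add_sub_cancel_left]
      nlinarith
    omega
  obtain ⟨e, he1, he2, hfam⟩ := famQ n K N₁ N₂ hK hN hN2 (by omega) (by omega) E (by
    have h1 : ((8 * (K * N₁) ^ 2 : ℕ) : ℝ) ≤ (m : ℝ) := by
      refine hEc.trans (le_of_eq ?_)
      rw [show (2 : ℝ) * (1 / 2 - ε) + 2 * ε = 1 by ring, Real.rpow_one]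
    have h2 : 8 * (K * N₁) ^ 2 ≤ m := by exact_mod_cast h1
    exact h2.trans hE)
  obtain ⟨Q, hQ1, hQ2⟩ := hfam true
  obtain ⟨φ⟩ : Nonempty (TabQ K N₁ N₂ × WdQ K N₁ ≃ Fin (Fintype.card (TabQ K N₁ N₂ × WdQ K N₁))) :=
    ⟨Fintype.equivFin _⟩
  refine ⟨Fintype.card (TabQ K N₁ N₂ × WdQ K N₁), fun i => Q (φ.symm i), ?_,
    fun i => (hQ1 _).2 rfl, ?_⟩
  · exact Fintype.card_pos_iff.2 ⟨(fun _ _ => ⟨0, hN2⟩, fun _ _ => false)⟩
  intro s r D hs hD hcnt
  have key : ∀ w : Fin r → Bool, ((univ.filter fun i : Fin (Fintype.card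
      (TabQ K N₁ N₂ × WdQ K N₁)) => D.Accepts (Sum.elim (Q (φ.symm i)) w)).card : ℝ) ≤
      Fintype.card (TabQ K N₁ N₂ × WdQ K N₁) * (2 : ℝ) ^ (-((m : ℝ) ^ (1 / 2 - ε))) := by
    intro w
    have h1 := hmain (EdgeVar n ⊕ Fin r) (fun k j t => Sum.inl (e k j t))
      (fun k j t k' j' t' h => he2 k j t k' j' t' (Sum.inl_injective h))
      (TabQ K N₁ N₂ × WdQ K N₁) (fun i => Sum.elim (Q i) w) (fun z => Clq fun e => z (Sum.inl e))
      ?_ s (dual D) ?_ hs ?_
    · refine le_trans (le_of_eq ?_) h1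
      rw [Nat.card_eq_fintype_card, Fintype.card_subtype, Nat.cast_inj]
      refine card_bij (fun i _ => φ.symm i) ?_ ?_ ?_
      · intro i hi
        refine mem_filter.2 ⟨mem_univ _, ?_⟩
        rw [dual_accepts, not_not]
        exact (mem_filter.1 hi).2
      · intro i _ j _ h
        exact φ.symm.injective h
      · intro i hi
        refine ⟨φ i, mem_filter.2 ⟨mem_univ _, ?_⟩, φ.symm_apply_apply i⟩
        have h2 := (mem_filter.1 hi).2
        rw [dual_accepts, not_not] at h2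
        simpa only [φ.symm_apply_apply] using h2
    · intro X J Y hJ hJX T hT hTC
      have h2 := hQ2 (fun k => univ.filter fun f => Sum.inl f ∈ X k) J Y hJ
        (fun k j hj t => mem_filter.2 ⟨mem_univ _, hJX k j hj t⟩)
        (fun x => T (Sum.elim x w)) ?_ ?_
      · exact h2
      · intro u v huv hv
        refine hT _ (fun k => Sum.elim (v k) w) ?_ hv
        rintro k (f | j) hf
        · exact huv k f fun hf' => hf (mem_filter.1 hf').2
        · rfl
      · intro x hx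
        exact ⟨fun _ => rfl, fun _ => hTC _ hx⟩
    · intro z hz
      rw [dual_accepts, not_not] at hz
      refine hD (fun f => z (Sum.inl f)) (fun j => z (Sum.inr j)) ?_
      have h2 : Sum.elim (fun f => z (Sum.inl f)) (fun j => z (Sum.inr j)) = z := by
        funext v
        rcases v with v | v <;> rfl
      rw [h2]
      exact hz
    · intro k j t L hL
      refine le_trans (le_of_eq ?_) (hcnt _ (he1 k j t) L (tree_dual hL))
      exact congrArg (Nat.cast : ℕ → ℝ) (count_inl _ L)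
  have h3 : ((univ.filter fun p : Fin (Fintype.card (TabQ K N₁ N₂ × WdQ K N₁)) ×
        (Fin r → Bool) => D.Accepts (Sum.elim (Q (φ.symm p.1)) p.2)).card : ℝ) =
      ∑ w : Fin r → Bool, ((univ.filter fun i : Fin (Fintype.card
        (TabQ K N₁ N₂ × WdQ K N₁)) => D.Accepts (Sum.elim (Q (φ.symm i)) w)).card : ℝ) := by
    rw [card_filter]
    push_cast
    rw [Fintype.sum_prod_type_right]
    refine sum_congr rfl fun w _ => ?_
    rw [card_filter]
    push_cast
    rfl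
  rw [h3]
  refine (sum_le_sum fun w _ => key w).trans (le_of_eq ?_)
  rw [sum_const, card_univ, Fintype.card_fun, Fintype.card_bool, Fintype.card_fin, nsmul_eq_mul]
  push_cast
  ring

end Pool.Agent.RA
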